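import Pool.Agent.W458.FJ.Fin
import Pool.Agent.W458.FJ.SUM
import Pool.Agent.W458.FJ.B1
import Pool.Agent.W239.FJ.B2
import Pool.Agent.W64.FJ.C1
import Pool.Agent.W458.FJ.C2
import Pool.Agent.W458.FJ.SG3
import Pool.Agent.W235.FJ.Z2
import Pool.Agent.W700.FJ.TOR
import Pool.Agent.W854.FJ.GEO
import Pool.Agent.W458.FJ.REG
import Pool.Agent.W764.FJ.ASM

/-!
# MP_9ff3e7_ag: Fujita's freeness conjecture for weighted complete intersections of codimension two

Let `X = V(f₁, f₂)` be a complete intersection of dimension `n` and of degrees `d₁`, `d₂` in the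
weighted projective space `P(a_0, ..., a_{n+2})`, such that `O(1)` is invertible on `X` (`hgcd`:
`X` does not meet the locus where the action of the torus has nontrivial stabilisers), for example
a smooth complete intersection which is well formed. Then `K_X = O(d₁ + d₂ - ∑ a_i)`, and for the
ample line bundle `A = O(k)`, `k ≥ 1`, the line bundle `K_X + (n + 1) A = O(e)`,
`e = d₁ + d₂ - ∑ a_i + k (n + 1)`, is globally generated: `e ≥ 0`, and for every point `v` of `X`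
there is a form `s` of weighted degree `e` that does not vanish at `v`.
-/

namespace Pool.Agent.Results.MP_9ff3e7_ag.WeightedCodimTwo

open MvPolynomial Pool.Agent.W458.FJ

/-- **Fujita's freeness conjecture for weighted complete intersections of codimension two.** -/
theorem result (n : ℕ) (a : Fin (n + 3) → ℕ) (ha : ∀ i, 0 < a i) (d₁ d₂ : ℕ) (hd₁ : 0 < d₁)
    (hd₂ : 0 < d₂) (f₁ f₂ : MvPolynomial (Fin (n + 3)) ℂ) (hf₁ : IsWeightedHomogeneous a f₁ d₁)
    (hf₂ : IsWeightedHomogeneous a f₂ d₂)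
    (hgcd : ∀ v : Fin (n + 3) → ℂ, v ≠ 0 → eval v f₁ = 0 → eval v f₂ = 0 →
      ∀ g : ℕ, (∀ i, v i ≠ 0 → g ∣ a i) → g = 1)
    (k : ℕ) (hk : 1 ≤ k) :
    ∃ e : ℕ, e + ∑ i, a i = d₁ + d₂ + k * (n + 1) ∧
      ∀ v : Fin (n + 3) → ℂ, v ≠ 0 → eval v f₁ = 0 → eval v f₂ = 0 →
        ∃ s : MvPolynomial (Fin (n + 3)) ℂ, IsWeightedHomogeneous a s e ∧ eval v s ≠ 0 := by
  have hSUM : SUM := SUMP.main
  have hGEO : GEO := Pool.Agent.W854.FJ.GEO.main Pool.Agent.W235.FJ.Z2.main1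
    Pool.Agent.W235.FJ.Z2.main
  have hREG : REG := REGP.main hGEO
  have hASM : ASM := Pool.Agent.W764.FJ.ASM.main hGEO hREG (B1P.main hSUM)
    (Pool.Agent.W239.FJ.B2.main hSUM) (Pool.Agent.W64.FJ.C1.main hSUM) (C2P.main hSUM) SG3P.main
    Pool.Agent.W700.FJ.TOR.main
  exact FIN.main hSUM hREG hASM n a ha d₁ d₂ hd₁ hd₂ f₁ f₂ hf₁ hf₂ hgcd k hk

end Pool.Agent.Results.MP_9ff3e7_ag.WeightedCodimTwo
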